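import Mathlib

set_option autoImplicit false

/-!
Counterexample to the El-Zahar - Erdos question, deterministic part.

Levels `Fin k`, each with `N` vertices.  The graph is random between different
levels, with an edge density which increases very fast with the distance of the
two levels.
-/

namespace Pool.Agent.EZE

open Finset

/-- distance of two levels -/
def gap (s t : ℕ) : ℕ := (s - t) + (t - s)

lemma gap_comm (s t : ℕ) : gap s t = gap t s := by
  unfold gap; omega

/-- number of vertices of `F` on level `s` -/
def lev {k N : ℕ} (F : Finset (Fin k × Fin N)) (s : Fin k) : ℕ :=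
  (F.filter (fun v => v.1 = s)).card

lemma lev_mono {k N : ℕ} {F G : Finset (Fin k × Fin N)} (h : F ⊆ G) (s : Fin k) :
    lev F s ≤ lev G s :=
  Finset.card_le_card (Finset.filter_subset_filter _ h)

/-- A family of sparse sets: greedy colouring. -/
lemma greedy {V : Type} [DecidableEq V] (H : SimpleGraph V) (q : ℕ) (hq : 0 < q)
    (A : Finset V)
    (h : ∀ F : Finset V, F ⊆ A → F.Nonempty →
      ∃ v ∈ F, ∀ S : Finset V, S ⊆ F → (∀ w ∈ S, H.Adj v w) → S.card < q) :
    ∃ f : V → Fin q, ∀ u ∈ A, ∀ w ∈ A, H.Adj u w → f u ≠ f w := by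
  classical
  have key : ∀ n : ℕ, ∀ F : Finset V, F.card = n → F ⊆ A →
      ∃ f : V → Fin q, ∀ u ∈ F, ∀ w ∈ F, H.Adj u w → f u ≠ f w := by
    intro n
    induction n with
    | zero =>
      intro F hF _
      rw [Finset.card_eq_zero] at hF
      subst hF
      exact ⟨fun _ => ⟨0, hq⟩, by simp⟩
    | succ n ih =>
      intro F hF hFA
      have hne : F.Nonempty := by
        rw [← Finset.card_pos]; omega
      obtain ⟨v, hv, hdeg⟩ := h F hFA hne
      obtain ⟨f, hf⟩ := ih (F.erase v) (by rw [Finset.card_erase_of_mem hv]; omega)
        ((Finset.erase_subset _ _).trans hFA)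
      -- colours used by the neighbours
      have hlt : ((F.filter (fun w => H.Adj v w)).image f).card < q :=
        lt_of_le_of_lt Finset.card_image_le
          (hdeg _ (Finset.filter_subset _ _) (fun w hw => (Finset.mem_filter.mp hw).2))
      obtain ⟨c, hc⟩ : ∃ c : Fin q, c ∉ (F.filter (fun w => H.Adj v w)).image f := by
        by_contra hcon
        push Not at hcon
        have : (Finset.univ : Finset (Fin q)) ⊆ (F.filter (fun w => H.Adj v w)).image f :=
          fun c _ => hcon c
        have := Finset.card_le_card this
        rw [Finset.card_univ, Fintype.card_fin] at this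
        omega
      refine ⟨Function.update f v c, ?_⟩
      intro u hu w hw huw
      by_cases h1 : u = v
      · subst h1
        have hwu : w ≠ u := fun e => H.ne_of_adj huw e.symm
        rw [Function.update_self, Function.update_of_ne hwu]
        intro e
        apply hc
        rw [e]
        exact Finset.mem_image_of_mem f (Finset.mem_filter.mpr ⟨hw, huw⟩)
      · by_cases h2 : w = v
        · subst h2
          rw [Function.update_self, Function.update_of_ne h1]
          intro e
          apply hc
          rw [← e]
          exact Finset.mem_image_of_mem f (Finset.mem_filter.mpr ⟨hu, huw.symm⟩)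
        · rw [Function.update_of_ne h1, Function.update_of_ne h2]
          exact hf u (Finset.mem_erase.mpr ⟨h1, hu⟩) w (Finset.mem_erase.mpr ⟨h2, hw⟩) huw
  exact key A.card A rfl (Finset.Subset.refl _)

/-- The key lemma on distances: two paths `s₁ < s₂ < s₃`, `t₁ < t₂ < t₃` on a line
cannot be such that every distance between two of the points is at most one of the
lengths at the two points. -/
lemma line_aux (s₁ s₂ s₃ t₁ t₂ t₃ : ℕ) (hs : s₁ < s₂) (hs' : s₂ < s₃) (ht : t₁ < t₂)
    (ht' : t₂ < t₃) (hst : s₁ ≤ t₁)
    (h13 : s₁ ≠ t₃ → gap s₁ t₃ ≤ max (gap s₁ s₂) (gap t₃ t₂))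
    (h31 : s₃ ≠ t₁ → gap s₃ t₁ ≤ max (gap s₃ s₂) (gap t₁ t₂)) : False := by
  unfold gap at h13 h31
  have h1 := h13 (by omega)
  have h2 : t₃ ≤ s₂ := by
    rcases le_max_iff.mp h1 with h | h <;> omega
  have h3 := h31 (by omega)
  rcases le_max_iff.mp h3 with h | h <;> omega

end Pool.Agent.EZE
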