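import Pool.Agent.EZE.Comb

set_option autoImplicit false

namespace Pool.Agent.EZE

open Finset

/-- the light edges inside `F` -/
noncomputable def lightE {k N : ℕ} (d : ℕ → ℕ) (G : SimpleGraph (Fin k × Fin N))
    (F : Finset (Fin k × Fin N)) : Finset ((Fin k × Fin N) × (Fin k × Fin N)) := by
  classical exact
  (F ×ˢ F).filter (fun p => p.1.1 < p.2.1 ∧
    min (lev F p.1.1) (lev F p.2.1) * d (gap p.1.1 p.2.1) ^ 2 ≤ N ∧ G.Adj p.1 p.2)

/-- The properties of the random graph. -/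
structure Good (k N : ℕ) (d m : ℕ → ℕ) (G : SimpleGraph (Fin k × Fin N)) : Prop where
  lvl : ∀ u w, G.Adj u w → u.1 ≠ w.1
  rect : ∀ s t : Fin k, s < t → ∀ X Y : Finset (Fin N),
    N ≤ X.card * m (gap s t) → N ≤ Y.card * m (gap s t) →
    ∃ x ∈ X, ∃ y ∈ Y, G.Adj (s, x) (t, y)
  sparse : ∀ F : Finset (Fin k × Fin N), F.Nonempty → (lightE d G F).card < 12 * F.card

/-- the fibre of `A` on level `s` -/
def fib {k N : ℕ} (A : Finset (Fin k × Fin N)) (s : Fin k) : Finset (Fin N) :=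
  (A.filter (fun v => v.1 = s)).image Prod.snd

lemma fib_card {k N : ℕ} (A : Finset (Fin k × Fin N)) (s : Fin k) :
    (fib A s).card = lev A s := by
  unfold fib lev
  apply Finset.card_image_of_injOn
  intro u hu w hw huw
  simp only [Finset.coe_filter, Set.mem_setOf_eq] at hu hw
  exact Prod.ext (hu.2.trans hw.2.symm) huw

lemma mem_fib {k N : ℕ} {A : Finset (Fin k × Fin N)} {s : Fin k} {x : Fin N} :
    x ∈ fib A s ↔ (s, x) ∈ A := by
  unfold fib
  simp only [Finset.mem_image, Finset.mem_filter, Prod.exists, exists_eq_right]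

lemma lev_le {k N : ℕ} (A : Finset (Fin k × Fin N)) (s : Fin k) : lev A s ≤ N := by
  rw [← fib_card]
  exact (Finset.card_le_univ _).trans (by simp)

lemma sum_lev {k N : ℕ} (A : Finset (Fin k × Fin N)) : ∑ s, lev A s = A.card := by
  unfold lev
  rw [← Finset.card_eq_sum_card_fiberwise (f := Prod.fst) (t := Finset.univ)]
  intro x _; simp

/-- symmetric form of the rectangle property -/
lemma Good.rect' {k N : ℕ} {d m : ℕ → ℕ} {G : SimpleGraph (Fin k × Fin N)}
    (hG : Good k N d m G) (A B : Finset (Fin k × Fin N)) (s t : Fin k) (hst : s ≠ t)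
    (hA : N ≤ lev A s * m (gap s t)) (hB : N ≤ lev B t * m (gap s t)) :
    ∃ a ∈ A, ∃ b ∈ B, G.Adj a b := by
  rcases lt_or_gt_of_ne hst with h | h
  · obtain ⟨x, hx, y, hy, hxy⟩ := hG.rect s t h (fib A s) (fib B t)
      (by rw [fib_card]; exact hA) (by rw [fib_card]; exact hB)
    exact ⟨_, mem_fib.mp hx, _, mem_fib.mp hy, hxy⟩
  · rw [gap_comm] at hA hB
    obtain ⟨x, hx, y, hy, hxy⟩ := hG.rect t s h (fib B t) (fib A s)
      (by rw [fib_card]; exact hB) (by rw [fib_card]; exact hA)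
    exact ⟨_, mem_fib.mp hy, _, mem_fib.mp hx, hxy.symm⟩

/-- independent sets are small -/
lemma Good.indep {k N : ℕ} {d m : ℕ → ℕ} {G : SimpleGraph (Fin k × Fin N)}
    (hG : Good k N d m G) (hk : 0 < k) (hm : ∀ i, 1 ≤ i → k ≤ m i)
    (I : Finset (Fin k × Fin N)) (hI : ∀ a ∈ I, ∀ b ∈ I, ¬ G.Adj a b) :
    I.card ≤ 2 * N := by
  classical
  have hone : ∀ s t : Fin k, N ≤ lev I s * k → N ≤ lev I t * k → s = t := by
    intro s t hs ht
    by_contra hst
    have hg : 1 ≤ gap s t := by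
      have : (s : ℕ) ≠ t := fun h => hst (Fin.ext h)
      unfold gap; omega
    obtain ⟨a, ha, b, hb, hab⟩ := hG.rect' I I s t hst
      (hs.trans (Nat.mul_le_mul_left _ (hm _ hg))) (ht.trans (Nat.mul_le_mul_left _ (hm _ hg)))
    exact hI a ha b hb hab
  have hsum : I.card * k ≤ (2 * N) * k := by
    rw [← sum_lev I, Finset.sum_mul]
    by_cases hex : ∃ s : Fin k, N ≤ lev I s * k
    · obtain ⟨s, hs⟩ := hex
      rw [← Finset.add_sum_erase _ _ (Finset.mem_univ s)]
      have h1 : lev I s * k ≤ N * k := Nat.mul_le_mul_right _ (lev_le I s)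
      have h2 : ∑ t ∈ Finset.univ.erase s, lev I t * k ≤ ∑ t ∈ Finset.univ.erase s, N := by
        apply Finset.sum_le_sum
        intro t ht
        by_contra hcon
        push Not at hcon
        exact (Finset.ne_of_mem_erase ht) (hone t s hcon.le hs)
      rw [Finset.sum_const, smul_eq_mul, Finset.card_erase_of_mem (Finset.mem_univ s),
        Finset.card_univ, Fintype.card_fin] at h2
      have h3 : (k - 1) * N ≤ k * N := Nat.mul_le_mul_right _ (by omega)
      nlinarith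
    · push Not at hex
      have h2 : ∑ t : Fin k, lev I t * k ≤ ∑ t : Fin k, N :=
        Finset.sum_le_sum (fun t _ => (hex t).le)
      rw [Finset.sum_const, smul_eq_mul, Finset.card_univ, Fintype.card_fin] at h2
      nlinarith
  exact Nat.le_of_mul_le_mul_right hsum hk

/-- the chromatic number is large -/
lemma Good.chi {k N : ℕ} {d m : ℕ → ℕ} {G : SimpleGraph (Fin k × Fin N)}
    (hG : Good k N d m G) (hk : 0 < k) (hN : 0 < N) (hm : ∀ i, 1 ≤ i → k ≤ m i)
    (q : ℕ) (hq : G.Colorable q) : k ≤ 2 * q := by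
  classical
  obtain ⟨C⟩ := hq
  have h1 : ∑ c : Fin q, (Finset.univ.filter (fun v => C v = c)).card = k * N := by
    rw [← Finset.card_eq_sum_card_fiberwise (f := fun v => C v) (t := Finset.univ)]
    · simp
    · intro x _; simp
  have h2 : ∑ c : Fin q, (Finset.univ.filter (fun v => C v = c)).card ≤
      ∑ c : Fin q, 2 * N := by
    apply Finset.sum_le_sum
    intro c _
    apply hG.indep hk hm
    intro a ha b hb hab
    simp only [Finset.mem_filter, Finset.mem_univ, true_and] at ha hb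
    exact C.valid hab (ha.trans hb.symm)
  rw [h1, Finset.sum_const, smul_eq_mul, Finset.card_univ, Fintype.card_fin] at h2
  have h3 : k * N ≤ (2 * q) * N := by
    calc k * N ≤ q * (2 * N) := h2
      _ = (2 * q) * N := by ring
  exact Nat.le_of_mul_le_mul_right h3 hN

/-- twice the number of edges -/
lemma card_adj_eq {k N : ℕ} (H : SimpleGraph (Fin k × Fin N)) [DecidableRel H.Adj]
    (hlvl : ∀ u w, H.Adj u w → u.1 ≠ w.1) (F : Finset (Fin k × Fin N)) :
    ((F ×ˢ F).filter (fun p => H.Adj p.1 p.2)).card =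
      2 * ((F ×ˢ F).filter (fun p => p.1.1 < p.2.1 ∧ H.Adj p.1 p.2)).card := by
  classical
  have hsplit : (F ×ˢ F).filter (fun p => H.Adj p.1 p.2) =
      (F ×ˢ F).filter (fun p => p.1.1 < p.2.1 ∧ H.Adj p.1 p.2) ∪
      (F ×ˢ F).filter (fun p => p.2.1 < p.1.1 ∧ H.Adj p.1 p.2) := by
    ext p
    simp only [Finset.mem_filter, Finset.mem_union]
    constructor
    · rintro ⟨hp, ha⟩
      rcases lt_or_gt_of_ne (hlvl _ _ ha) with h | h
      · exact Or.inl ⟨hp, h, ha⟩
      · exact Or.inr ⟨hp, h, ha⟩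
    · rintro (⟨hp, _, ha⟩ | ⟨hp, _, ha⟩) <;> exact ⟨hp, ha⟩
  have hdis : Disjoint ((F ×ˢ F).filter (fun p => p.1.1 < p.2.1 ∧ H.Adj p.1 p.2))
      ((F ×ˢ F).filter (fun p => p.2.1 < p.1.1 ∧ H.Adj p.1 p.2)) := by
    rw [Finset.disjoint_left]
    intro p hp hq
    simp only [Finset.mem_filter] at hp hq
    exact absurd hp.2.1 (not_lt.mpr hq.2.1.le)
  have hswap : ((F ×ˢ F).filter (fun p => p.2.1 < p.1.1 ∧ H.Adj p.1 p.2)).card =
      ((F ×ˢ F).filter (fun p => p.1.1 < p.2.1 ∧ H.Adj p.1 p.2)).card := by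
    apply Finset.card_bij (fun p _ => (p.2, p.1))
    · intro p hp
      simp only [Finset.mem_filter, Finset.mem_product] at hp ⊢
      exact ⟨⟨hp.1.2, hp.1.1⟩, hp.2.1, hp.2.2.symm⟩
    · intro p _ q _ h
      simp only [Prod.mk.injEq] at h
      exact Prod.ext h.2 h.1
    · intro p hp
      simp only [Finset.mem_filter, Finset.mem_product] at hp
      refine ⟨(p.2, p.1), ?_, rfl⟩
      simp only [Finset.mem_filter, Finset.mem_product]
      exact ⟨⟨hp.1.2, hp.1.1⟩, hp.2.1, hp.2.2.symm⟩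
  rw [hsplit, Finset.card_union_of_disjoint hdis, hswap]
  ring

/-- no large cliques -/
lemma Good.cliqueFree {k N : ℕ} {d m : ℕ → ℕ} {G : SimpleGraph (Fin k × Fin N)}
    (hG : Good k N d m G) (hd : ∀ i, i < k → d i ^ 2 ≤ N) : G.CliqueFree 25 := by
  classical
  intro K hK
  have hcl := hK.isClique
  have hcard := hK.card_eq
  have hlev : ∀ s, lev K s ≤ 1 := by
    intro s
    unfold lev
    rw [Finset.card_le_one]
    intro a ha b hb
    simp only [Finset.mem_filter] at ha hb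
    by_contra hab
    exact hG.lvl a b (hcl ha.1 hb.1 hab) (ha.2.trans hb.2.symm)
  have hne : K.Nonempty := by rw [← Finset.card_pos]; omega
  have h1 := hG.sparse K hne
  have h2 : lightE d G K = (K ×ˢ K).filter (fun p => p.1.1 < p.2.1 ∧ G.Adj p.1 p.2) := by
    unfold lightE
    apply Finset.filter_congr
    intro p _
    constructor
    · rintro ⟨a, _, b⟩; exact ⟨a, b⟩
    · rintro ⟨a, b⟩
      refine ⟨a, ?_, b⟩
      have h3 : min (lev K p.1.1) (lev K p.2.1) ≤ 1 := (min_le_left _ _).trans (hlev _)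
      have h4 : gap p.1.1 p.2.1 < k := by
        have := p.1.1.2
        have := p.2.1.2
        unfold gap; omega
      calc min (lev K p.1.1) (lev K p.2.1) * d (gap p.1.1 p.2.1) ^ 2
          ≤ 1 * d (gap p.1.1 p.2.1) ^ 2 := Nat.mul_le_mul_right _ h3
        _ ≤ N := by rw [one_mul]; exact hd _ h4
  have h3 := card_adj_eq G hG.lvl K
  have h4 : (K ×ˢ K).filter (fun p => G.Adj p.1 p.2) = K.offDiag := by
    ext p
    simp only [Finset.mem_filter, Finset.mem_product, Finset.mem_offDiag]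
    constructor
    · rintro ⟨⟨a, b⟩, c⟩; exact ⟨a, b, G.ne_of_adj c⟩
    · rintro ⟨a, b, c⟩; exact ⟨⟨a, b⟩, hcl a b c⟩
  rw [h4, Finset.offDiag_card, hcard] at h3
  rw [h2, hcard] at h1
  omega

/-- effective pairs of levels -/
def eff {k N : ℕ} (d : ℕ → ℕ) (A : Finset (Fin k × Fin N)) (s t : Fin k) : Prop :=
  N < lev A s * d (gap s t) ^ 2 ∧ N < lev A t * d (gap s t) ^ 2

lemma eff_symm {k N : ℕ} {d : ℕ → ℕ} {A : Finset (Fin k × Fin N)} {s t : Fin k}
    (h : eff d A s t) : eff d A t s := by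
  unfold eff at *
  rw [gap_comm]
  exact ⟨h.2, h.1⟩

/-- If there is no monotone path of length two of effective pairs, then `48` colours
are enough. -/
lemma Good.color {k N : ℕ} {d m : ℕ → ℕ} {G : SimpleGraph (Fin k × Fin N)}
    (hG : Good k N d m G) (A : Finset (Fin k × Fin N))
    (hA : ¬ ∃ s₁ s₂ s₃ : Fin k, s₁ < s₂ ∧ s₂ < s₃ ∧ eff d A s₁ s₂ ∧ eff d A s₂ s₃) :
    ∃ f : (Fin k × Fin N) → Fin 24 × Bool,
      ∀ u ∈ A, ∀ w ∈ A, G.Adj u w → f u ≠ f w := by
  classical
  -- the light graph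
  let H : SimpleGraph (Fin k × Fin N) :=
    { Adj := fun u w => G.Adj u w ∧ ¬ eff d A u.1 w.1
      symm := ⟨fun u w h => ⟨h.1.symm, fun h' => h.2 (eff_symm h')⟩⟩
      loopless := ⟨fun u h => G.loopless.irrefl u h.1⟩ }
  have hHG : ∀ u w, H.Adj u w → G.Adj u w := fun u w h => h.1
  have hHl : ∀ u w, H.Adj u w → u.1 ≠ w.1 := fun u w h => hG.lvl u w h.1
  obtain ⟨f, hf⟩ : ∃ f : (Fin k × Fin N) → Fin 24,
      ∀ u ∈ A, ∀ w ∈ A, H.Adj u w → f u ≠ f w := by
    apply greedy H 24 (by norm_num) A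
    intro F hFA hF
    have h1 := hG.sparse F hF
    have h2 : ((F ×ˢ F).filter (fun p => p.1.1 < p.2.1 ∧ H.Adj p.1 p.2)).card ≤
        (lightE d G F).card := by
      apply Finset.card_le_card
      intro p hp
      simp only [Finset.mem_filter] at hp
      unfold lightE
      simp only [Finset.mem_filter]
      refine ⟨hp.1, hp.2.1, ?_, hp.2.2.1⟩
      have h3 : ¬ eff d A p.1.1 p.2.1 := hp.2.2.2
      unfold eff at h3
      rw [not_and_or, not_lt, not_lt] at h3
      rcases h3 with h3 | h3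
      · exact (Nat.mul_le_mul_right _ ((min_le_left _ _).trans (lev_mono hFA _))).trans h3
      · exact (Nat.mul_le_mul_right _ ((min_le_right _ _).trans (lev_mono hFA _))).trans h3
    have h3 := card_adj_eq H hHl F
    have h4 : ((F ×ˢ F).filter (fun p => H.Adj p.1 p.2)).card =
        ∑ v ∈ F, (F.filter (fun w => H.Adj v w)).card := by
      rw [Finset.card_filter, Finset.sum_product]
      apply Finset.sum_congr rfl
      intro v _
      rw [Finset.card_filter]
    have h5 : ∑ v ∈ F, (F.filter (fun w => H.Adj v w)).card < ∑ v ∈ F, 24 := by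
      rw [← h4, Finset.sum_const, smul_eq_mul]
      omega
    obtain ⟨v, hv, hlt⟩ := Finset.exists_lt_of_sum_lt h5
    refine ⟨v, hv, ?_⟩
    intro S hS hadj
    refine lt_of_le_of_lt (Finset.card_le_card ?_) hlt
    intro w hw
    exact Finset.mem_filter.mpr ⟨hS hw, hadj w hw⟩
  refine ⟨fun v => (f v, decide (∃ t : Fin k, t < v.1 ∧ eff d A t v.1)), ?_⟩
  -- one direction
  have key : ∀ u ∈ A, ∀ w ∈ A, G.Adj u w → u.1 < w.1 →
      (f u, decide (∃ t : Fin k, t < u.1 ∧ eff d A t u.1)) ≠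
      (f w, decide (∃ t : Fin k, t < w.1 ∧ eff d A t w.1)) := by
    intro u hu w hw huw hlt heq
    rw [Prod.mk.injEq] at heq
    by_cases he : eff d A u.1 w.1
    · have hw' : ∃ t : Fin k, t < w.1 ∧ eff d A t w.1 := ⟨u.1, hlt, he⟩
      have h2 := heq.2
      rw [decide_eq_decide] at h2
      obtain ⟨t, ht, hte⟩ := h2.mpr hw'
      exact hA ⟨t, u.1, w.1, ht, hlt, hte, he⟩
    · exact hf u hu w hw ⟨huw, he⟩ heq.1
  intro u hu w hw huw
  rcases lt_or_gt_of_ne (hG.lvl u w huw) with h | h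
  · exact key u hu w hw huw h
  · exact (key w hw u hu huw.symm h).symm

/-- The main deterministic statement. -/
theorem Good.main {k N : ℕ} {d m : ℕ → ℕ} {G : SimpleGraph (Fin k × Fin N)}
    (hG : Good k N d m G) (hdm : ∀ i j, i < j → d i ^ 2 ≤ m j)
    (A B : Finset (Fin k × Fin N)) (hAB : ∀ a ∈ A, ∀ b ∈ B, ¬ G.Adj a b) :
    (∃ f : (Fin k × Fin N) → Fin 24 × Bool, ∀ u ∈ A, ∀ w ∈ A, G.Adj u w → f u ≠ f w) ∨
    (∃ f : (Fin k × Fin N) → Fin 24 × Bool, ∀ u ∈ B, ∀ w ∈ B, G.Adj u w → f u ≠ f w) := by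
  by_cases hA : ∃ s₁ s₂ s₃ : Fin k, s₁ < s₂ ∧ s₂ < s₃ ∧ eff d A s₁ s₂ ∧ eff d A s₂ s₃
  swap
  · exact Or.inl (hG.color A hA)
  by_cases hB : ∃ s₁ s₂ s₃ : Fin k, s₁ < s₂ ∧ s₂ < s₃ ∧ eff d B s₁ s₂ ∧ eff d B s₂ s₃
  swap
  · exact Or.inr (hG.color B hB)
  exfalso
  -- the distance property
  have hdist : ∀ s s' t t' : Fin k, eff d A s s' → eff d B t t' → s ≠ t →
      gap s t ≤ max (gap s s') (gap t t') := by
    intro s s' t t' hs ht hne
    by_contra hcon
    push Not at hcon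
    rw [max_lt_iff] at hcon
    have h1 : N ≤ lev A s * m (gap s t) :=
      hs.1.le.trans (Nat.mul_le_mul_left _ (hdm _ _ hcon.1))
    have h2 : N ≤ lev B t * m (gap s t) :=
      ht.1.le.trans (Nat.mul_le_mul_left _ (hdm _ _ hcon.2))
    obtain ⟨a, ha, b, hb, hab⟩ := hG.rect' A B s t hne h1 h2
    exact hAB a ha b hb hab
  obtain ⟨s₁, s₂, s₃, hs12, hs23, ha12, ha23⟩ := hA
  obtain ⟨t₁, t₂, t₃, ht12, ht23, hb12, hb23⟩ := hB
  rcases le_total s₁ t₁ with h | h
  · apply line_aux s₁ s₂ s₃ t₁ t₂ t₃ hs12 hs23 ht12 ht23 h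
    · intro hne
      exact hdist s₁ s₂ t₃ t₂ ha12 (eff_symm hb23) (fun e => hne (by rw [e]))
    · intro hne
      exact hdist s₃ s₂ t₁ t₂ (eff_symm ha23) hb12 (fun e => hne (by rw [e]))
  · apply line_aux t₁ t₂ t₃ s₁ s₂ s₃ ht12 ht23 hs12 hs23 h
    · intro hne
      have := hdist s₃ s₂ t₁ t₂ (eff_symm ha23) hb12 (fun e => hne (by rw [e]))
      rw [gap_comm t₁ s₃, max_comm]
      exact this
    · intro hne
      have := hdist s₁ s₂ t₃ t₂ ha12 (eff_symm hb23) (fun e => hne (by rw [e]))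
      rw [gap_comm t₃ s₁, max_comm]
      exact this

end Pool.Agent.EZE
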