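import Mathlib

set_option autoImplicit false

/-!
Counting on the space `E → Fin N` (every element of `E` has a uniform label).
-/

namespace Pool.Agent.EZE

open Finset

/-- the fraction of the points with property `p` -/
noncomputable def Pr {Ω : Type} [Fintype Ω] (p : Ω → Prop) : ℝ := by
  classical exact ((Finset.univ.filter p).card : ℝ) / (Fintype.card Ω : ℝ)

lemma Pr_eq {Ω : Type} [Fintype Ω] (p : Ω → Prop) [DecidablePred p] :
    Pr p = ((Finset.univ.filter p).card : ℝ) / (Fintype.card Ω : ℝ) := by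
  unfold Pr
  congr!

lemma Pr_nonneg {Ω : Type} [Fintype Ω] (p : Ω → Prop) : 0 ≤ Pr p := by
  unfold Pr; positivity

lemma Pr_or {Ω : Type} [Fintype Ω] (p q : Ω → Prop) :
    Pr (fun ω => p ω ∨ q ω) ≤ Pr p + Pr q := by
  classical
  rw [Pr_eq, Pr_eq, Pr_eq]
  rw [← add_div]
  apply div_le_div_of_nonneg_right _ (by positivity)
  have h : (Finset.univ.filter (fun ω => p ω ∨ q ω)) =
      Finset.univ.filter p ∪ Finset.univ.filter q := by
    ext ω; simp
  have := Finset.card_union_le (Finset.univ.filter p) (Finset.univ.filter q)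
  rw [← h] at this
  exact_mod_cast this

lemma Pr_mono {Ω : Type} [Fintype Ω] {p q : Ω → Prop} (h : ∀ ω, p ω → q ω) :
    Pr p ≤ Pr q := by
  classical
  rw [Pr_eq, Pr_eq]
  apply div_le_div_of_nonneg_right _ (by positivity)
  exact_mod_cast Finset.card_le_card
    (fun ω hω => Finset.mem_filter.mpr ⟨Finset.mem_univ _, h ω (Finset.mem_filter.mp hω).2⟩)

lemma Pr_false {Ω : Type} [Fintype Ω] {p : Ω → Prop} (h : ∀ ω, ¬ p ω) : Pr p = 0 := by
  classical
  rw [Pr_eq]
  rw [Finset.filter_false_of_mem (fun ω _ => h ω)]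
  simp

lemma Pr_exists {Ω ι : Type} [Fintype Ω] (I : Finset ι) (p : ι → Ω → Prop) :
    Pr (fun ω => ∃ i ∈ I, p i ω) ≤ ∑ i ∈ I, Pr (p i) := by
  classical
  induction I using Finset.induction_on with
  | empty =>
    rw [Pr_false (by simp)]
    simp
  | insert a s ha ih =>
    rw [Finset.sum_insert ha]
    refine le_trans (le_trans (Pr_mono (q := fun ω => p a ω ∨ ∃ i ∈ s, p i ω) ?_)
      (Pr_or _ _)) (by linarith)
    rintro ω ⟨i, hi, hp⟩
    rcases Finset.mem_insert.mp hi with h | h
    · left; rwa [← h]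
    · exact Or.inr ⟨i, h, hp⟩

lemma exists_of_Pr_lt {Ω : Type} [Fintype Ω] [Nonempty Ω] {p : Ω → Prop} (h : Pr p < 1) :
    ∃ ω, ¬ p ω := by
  classical
  by_contra hcon
  push Not at hcon
  rw [Pr_eq] at h
  rw [Finset.filter_true_of_mem (fun ω _ => hcon ω), Finset.card_univ,
    div_self (by exact_mod_cast Fintype.card_ne_zero)] at h
  exact lt_irrefl _ h

/-- exchange of sum and product -/
lemma sum_prod_pi {E : Type} [Fintype E] [DecidableEq E] {N : ℕ} (g : E → Fin N → ℝ) :
    ∑ ω : E → Fin N, ∏ e, g e (ω e) = ∏ e, ∑ j, g e j := by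
  rw [Finset.prod_univ_sum]
  rw [Fintype.piFinset_univ]

lemma card_lt {N D : ℕ} (h : D ≤ N) :
    (Finset.univ.filter (fun j : Fin N => (j : ℕ) < D)).card = D := by
  rw [← Finset.card_map Fin.valEmbedding]
  have : (Finset.univ.filter (fun j : Fin N => (j : ℕ) < D)).map Fin.valEmbedding =
      Finset.range D := by
    ext x
    simp only [Finset.mem_map, Finset.mem_filter, Finset.mem_univ, true_and,
      Fin.valEmbedding_apply, Finset.mem_range]
    constructor
    · rintro ⟨a, ha, rfl⟩; exact ha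
    · intro hx; exact ⟨⟨x, by omega⟩, hx, rfl⟩
  rw [this, Finset.card_range]

/-- weighted sum over one label -/
lemma sum_label {N D : ℕ} (h : D ≤ N) (a b : ℝ) :
    ∑ j : Fin N, (if (j : ℕ) < D then a else b) = D * a + (N - D) * b := by
  classical
  rw [Finset.sum_ite, Finset.sum_const, Finset.sum_const, card_lt h]
  have h2 : (Finset.univ.filter (fun j : Fin N => ¬ (j : ℕ) < D)).card = N - D := by
    have := Finset.card_filter_add_card_filter_not (s := (Finset.univ : Finset (Fin N)))
      (fun j : Fin N => (j : ℕ) < D)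
    rw [card_lt h, Finset.card_univ, Fintype.card_fin] at this
    omega
  rw [h2, nsmul_eq_mul, nsmul_eq_mul, Nat.cast_sub h]

/-- the general bound -/
lemma prod_bound {E : Type} [Fintype E] [DecidableEq E] {N : ℕ} (hN : 0 < N)
    (T : Finset E) (D : E → ℕ) (hD : ∀ e, D e ≤ N) (a b c : ℝ)
    (ha : 0 ≤ a) (hb : 0 ≤ b)
    (h1 : ∀ x : ℝ, 0 ≤ x → x ≤ 1 → x * a + (1 - x) * b ≤ Real.exp (c * x)) :
    ∑ ω : E → Fin N, ∏ e ∈ T, (if (ω e : ℕ) < D e then a else b) ≤
      (Fintype.card (E → Fin N) : ℝ) * Real.exp (c * ∑ e ∈ T, (D e : ℝ) / N) := by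
  classical
  have hN' : (0 : ℝ) < N := by exact_mod_cast hN
  have h2 : ∀ ω : E → Fin N, ∏ e ∈ T, (if (ω e : ℕ) < D e then a else b) =
      ∏ e, (if e ∈ T then (if (ω e : ℕ) < D e then a else b) else 1) := by
    intro ω
    rw [Finset.prod_ite_mem, Finset.univ_inter]
  simp only [h2]
  rw [sum_prod_pi (fun e j => if e ∈ T then (if (j : ℕ) < D e then a else b) else 1)]
  have h3 : ∀ e, ∑ j : Fin N, (if e ∈ T then (if (j : ℕ) < D e then a else b) else 1) ≤
      N * (if e ∈ T then Real.exp (c * ((D e : ℝ) / N)) else 1) := by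
    intro e
    by_cases he : e ∈ T
    · simp only [he, if_true]
      rw [sum_label (hD e)]
      have hx0 : (0 : ℝ) ≤ (D e : ℝ) / N := by positivity
      have hx1 : (D e : ℝ) / N ≤ 1 := by
        rw [div_le_one hN']; exact_mod_cast hD e
      have h4 := h1 _ hx0 hx1
      calc (D e : ℝ) * a + (N - D e) * b
          = N * ((D e : ℝ) / N * a + (1 - (D e : ℝ) / N) * b) := by
            field_simp
        _ ≤ N * Real.exp (c * ((D e : ℝ) / N)) := mul_le_mul_of_nonneg_left h4 hN'.le
    · simp only [he, if_false]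
      simp
  calc ∏ e, ∑ j : Fin N, (if e ∈ T then (if (j : ℕ) < D e then a else b) else 1)
      ≤ ∏ e : E, ((N : ℝ) * (if e ∈ T then Real.exp (c * ((D e : ℝ) / N)) else 1)) := by
        apply Finset.prod_le_prod
        · intro e _
          apply Finset.sum_nonneg
          intro j _
          split_ifs <;> first | exact ha | exact hb | exact zero_le_one
        · intro e _; exact h3 e
    _ = (Fintype.card (E → Fin N) : ℝ) * Real.exp (c * ∑ e ∈ T, (D e : ℝ) / N) := by
        rw [Finset.prod_mul_distrib, Finset.prod_const, Finset.card_univ,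
          Finset.prod_ite_mem, Finset.univ_inter, ← Real.exp_sum, Finset.mul_sum]
        congr 1
        rw [Fintype.card_fun, Fintype.card_fin]
        push_cast
        rfl

/-- probability that all elements of `T` are absent -/
lemma Pr_absent {E : Type} [Fintype E] [DecidableEq E] {N : ℕ} (hN : 0 < N)
    (T : Finset E) (D : E → ℕ) (hD : ∀ e, D e ≤ N) :
    Pr (fun ω : E → Fin N => ∀ e ∈ T, ¬ (ω e : ℕ) < D e) ≤
      Real.exp (-(∑ e ∈ T, (D e : ℝ) / N)) := by
  classical
  haveI : Nonempty (Fin N) := ⟨⟨0, hN⟩⟩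
  have hcard : (0 : ℝ) < (Fintype.card (E → Fin N) : ℝ) := by
    exact_mod_cast Fintype.card_pos
  have h := prod_bound hN T D hD 0 1 (-1) le_rfl zero_le_one (by
    intro x _ _
    have := Real.add_one_le_exp (-x)
    simp only [mul_zero, mul_one, zero_add, neg_mul, one_mul]
    linarith)
  rw [Pr_eq]
  rw [div_le_iff₀ hcard]
  calc ((Finset.univ.filter (fun ω : E → Fin N => ∀ e ∈ T, ¬ (ω e : ℕ) < D e)).card : ℝ)
      = ∑ ω : E → Fin N, (if ∀ e ∈ T, ¬ (ω e : ℕ) < D e then (1 : ℝ) else 0) := by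
        rw [Finset.card_filter]; push_cast; rfl
    _ ≤ ∑ ω : E → Fin N, ∏ e ∈ T, (if (ω e : ℕ) < D e then (0 : ℝ) else 1) := by
        apply Finset.sum_le_sum
        intro ω _
        by_cases hω : ∀ e ∈ T, ¬ (ω e : ℕ) < D e
        · rw [if_pos hω, Finset.prod_eq_one]
          intro e he
          rw [if_neg (hω e he)]
        · rw [if_neg hω]
          apply Finset.prod_nonneg
          intro e _
          split_ifs <;> norm_num
    _ ≤ (Fintype.card (E → Fin N) : ℝ) * Real.exp ((-1) * ∑ e ∈ T, (D e : ℝ) / N) := h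
    _ = Real.exp (-(∑ e ∈ T, (D e : ℝ) / N)) * (Fintype.card (E → Fin N) : ℝ) := by
        rw [mul_comm, neg_one_mul]

/-- probability that at least `M` elements of `T` are present -/
lemma Pr_present {E : Type} [Fintype E] [DecidableEq E] {N : ℕ} (hN : 0 < N)
    (T : Finset E) (D : E → ℕ) (hD : ∀ e, D e ≤ N) (M : ℕ) (z : ℝ) (hz : 1 ≤ z) :
    Pr (fun ω : E → Fin N => M ≤ (T.filter (fun e => (ω e : ℕ) < D e)).card) ≤
      Real.exp (z * ∑ e ∈ T, (D e : ℝ) / N) / z ^ M := by
  classical
  haveI : Nonempty (Fin N) := ⟨⟨0, hN⟩⟩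
  have hcard : (0 : ℝ) < (Fintype.card (E → Fin N) : ℝ) := by
    exact_mod_cast Fintype.card_pos
  have hz0 : 0 < z := by linarith
  have h := prod_bound hN T D hD z 1 z hz0.le zero_le_one (by
    intro x hx0 _
    have := Real.add_one_le_exp (z * x)
    nlinarith)
  rw [Pr_eq]
  rw [div_le_iff₀ hcard, div_mul_eq_mul_div, le_div_iff₀ (by positivity)]
  calc ((Finset.univ.filter (fun ω : E → Fin N =>
        M ≤ (T.filter (fun e => (ω e : ℕ) < D e)).card)).card : ℝ) * z ^ M
      = ∑ ω : E → Fin N, (if M ≤ (T.filter (fun e => (ω e : ℕ) < D e)).card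
          then z ^ M else 0) := by
        rw [Finset.card_filter]; push_cast
        rw [Finset.sum_mul]
        apply Finset.sum_congr rfl
        intro ω _
        split_ifs <;> simp
    _ ≤ ∑ ω : E → Fin N, ∏ e ∈ T, (if (ω e : ℕ) < D e then z else 1) := by
        apply Finset.sum_le_sum
        intro ω _
        rw [Finset.prod_ite, Finset.prod_const, Finset.prod_const_one, mul_one]
        split_ifs with hω
        · exact pow_le_pow_right₀ hz hω
        · positivity
    _ ≤ (Fintype.card (E → Fin N) : ℝ) * Real.exp (z * ∑ e ∈ T, (D e : ℝ) / N) := h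
    _ = Real.exp (z * ∑ e ∈ T, (D e : ℝ) / N) * (Fintype.card (E → Fin N) : ℝ) := by
        rw [mul_comm]

end Pool.Agent.EZE
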