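import Pool.Agent.EZE.Det
import Pool.Agent.EZE.Prob

set_option autoImplicit false

/-!
Existence of good graphs.
-/

namespace Pool.Agent.EZE

open Finset

/-- the parameters `m` -/
def mm (k : ℕ) : ℕ → ℕ
  | 0 => k
  | (j + 1) => (4 * (mm k j) ^ 2) ^ 2

/-- the parameters `d` -/
def dd (k j : ℕ) : ℕ := 4 * (mm k j) ^ 2

lemma mm_succ (k j : ℕ) : mm k (j + 1) = (dd k j) ^ 2 := rfl

lemma mm_le_succ (k j : ℕ) : mm k j ≤ mm k (j + 1) := by
  rw [mm_succ, dd]
  rcases Nat.eq_zero_or_pos (mm k j) with h | h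
  · rw [h]; exact Nat.zero_le _
  · have h1 : mm k j ≤ mm k j ^ 2 := by nlinarith
    have h2 : 4 * mm k j ^ 2 ≤ (4 * mm k j ^ 2) ^ 2 := by nlinarith
    linarith

lemma mm_mono (k : ℕ) : Monotone (mm k) := monotone_nat_of_le_succ (mm_le_succ k)

lemma le_mm (k j : ℕ) : k ≤ mm k j := mm_mono k (Nat.zero_le j)

lemma dd_mono (k : ℕ) : Monotone (dd k) := by
  intro i j hij
  unfold dd
  exact Nat.mul_le_mul_left _ (Nat.pow_le_pow_left (mm_mono k hij) 2)

lemma dd_sq_le (k i j : ℕ) (h : i < j) : dd k i ^ 2 ≤ mm k j := by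
  rw [← mm_succ]
  exact mm_mono k h

/-- the random graph -/
def Gr {k N : ℕ} (d : ℕ → ℕ) (ω : ((Fin k × Fin N) × (Fin k × Fin N)) → Fin N) :
    SimpleGraph (Fin k × Fin N) where
  Adj u w := (u.1 < w.1 ∧ (ω (u, w) : ℕ) < d (gap u.1 w.1)) ∨
    (w.1 < u.1 ∧ (ω (w, u) : ℕ) < d (gap w.1 u.1))
  symm := ⟨fun u w h => h.symm⟩
  loopless := ⟨fun u h => by rcases h with h | h <;> exact lt_irrefl _ h.1⟩

/-- the label bound of a potential edge -/
def DE {k N : ℕ} (d : ℕ → ℕ) (e : (Fin k × Fin N) × (Fin k × Fin N)) : ℕ :=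
  d (gap e.1.1 e.2.1)

/-- potential light edges -/
def TF {k N : ℕ} (d : ℕ → ℕ) (F : Finset (Fin k × Fin N)) :
    Finset ((Fin k × Fin N) × (Fin k × Fin N)) :=
  (F ×ˢ F).filter (fun p => p.1.1 < p.2.1 ∧
    min (lev F p.1.1) (lev F p.2.1) * d (gap p.1.1 p.2.1) ^ 2 ≤ N)

lemma lightE_eq {k N : ℕ} (d : ℕ → ℕ)
    (ω : ((Fin k × Fin N) × (Fin k × Fin N)) → Fin N) (F : Finset (Fin k × Fin N)) :
    lightE d (Gr d ω) F = (TF d F).filter (fun e => (ω e : ℕ) < DE d e) := by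
  classical
  ext p
  unfold lightE TF DE
  simp only [Finset.mem_filter]
  constructor
  · rintro ⟨h1, h2, h3, h4⟩
    refine ⟨⟨h1, h2, h3⟩, ?_⟩
    rcases h4 with h4 | h4
    · exact h4.2
    · exact absurd h4.1 (not_lt.mpr h2.le)
  · rintro ⟨⟨h1, h2, h3⟩, h4⟩
    exact ⟨h1, h2, h3, Or.inl ⟨h2, h4⟩⟩

lemma lev_pos {k N : ℕ} {F : Finset (Fin k × Fin N)} {u : Fin k × Fin N} (hu : u ∈ F) :
    0 < lev F u.1 := by
  unfold lev
  exact Finset.card_pos.mpr ⟨u, Finset.mem_filter.mpr ⟨hu, rfl⟩⟩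

lemma lev_le_card {k N : ℕ} (F : Finset (Fin k × Fin N)) (s : Fin k) :
    lev F s ≤ F.card := Finset.card_le_card (Finset.filter_subset _ _)

/-- sum of the inverse level sizes -/
lemma sum_inv_lev {k N : ℕ} (F : Finset (Fin k × Fin N)) :
    ∑ w ∈ F, (1 : ℝ) / lev F w.1 ≤ k := by
  classical
  rw [← Finset.sum_fiberwise_of_maps_to (s := F) (t := (Finset.univ : Finset (Fin k)))
    (g := fun w => w.1) (fun _ _ => Finset.mem_univ _)]
  calc ∑ s : Fin k, ∑ w ∈ F.filter (fun w => w.1 = s), (1 : ℝ) / lev F w.1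
      ≤ ∑ s : Fin k, (1 : ℝ) := by
        apply Finset.sum_le_sum
        intro s _
        have h1 : ∑ w ∈ F.filter (fun w => w.1 = s), (1 : ℝ) / lev F w.1 =
            ∑ w ∈ F.filter (fun w => w.1 = s), (1 : ℝ) / lev F s := by
          apply Finset.sum_congr rfl
          intro w hw
          rw [(Finset.mem_filter.mp hw).2]
        rw [h1, Finset.sum_const, nsmul_eq_mul]
        show (lev F s : ℝ) * (1 / lev F s) ≤ 1
        rcases Nat.eq_zero_or_pos (lev F s) with h | h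
        · rw [h]; simp
        · have : (0 : ℝ) < lev F s := by exact_mod_cast h
          rw [mul_one_div, div_self this.ne']
    _ = k := by simp

/-- expected number of light edges -/
lemma lam_bound {k N : ℕ} (hN : 0 < N) (d : ℕ → ℕ) (hd : Monotone d)
    (F : Finset (Fin k × Fin N)) (hF : F.Nonempty) (q : ℝ) (hq : 0 < q)
    (hq4 : q ^ 4 = max ((N : ℝ) / F.card) ((d 0 : ℝ) ^ 2)) :
    ∑ e ∈ TF d F, (DE d e : ℝ) / N ≤ 2 * k * F.card / q ^ 2 := by
  classical
  have hN' : (0 : ℝ) < N := by exact_mod_cast hN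
  have hF' : (0 : ℝ) < F.card := by exact_mod_cast Finset.card_pos.mpr hF
  have hterm : ∀ e ∈ TF d F, (DE d e : ℝ) / N ≤
      (1 / q ^ 2) * ((1 : ℝ) / lev F e.1.1 + 1 / lev F e.2.1) := by
    intro e he
    unfold TF at he
    rw [Finset.mem_filter, Finset.mem_product] at he
    obtain ⟨⟨h1, h2⟩, h3, h4⟩ := he
    have hl1 : (0 : ℝ) < lev F e.1.1 := by exact_mod_cast lev_pos h1
    have hl2 : (0 : ℝ) < lev F e.2.1 := by exact_mod_cast lev_pos h2
    set μ : ℕ := min (lev F e.1.1) (lev F e.2.1) with hμ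
    have hμpos : 0 < μ := lt_min (lev_pos h1) (lev_pos h2)
    have hμ' : (0 : ℝ) < μ := by exact_mod_cast hμpos
    have hμF : (μ : ℝ) ≤ F.card := by
      exact_mod_cast (min_le_left _ _).trans (lev_le_card F _)
    have h5 : (μ : ℝ) * (DE d e : ℝ) ^ 2 ≤ N := by
      unfold DE; exact_mod_cast h4
    have h6 : (μ : ℝ) * q ^ 4 ≤ N := by
      rw [hq4]
      rcases max_cases ((N : ℝ) / F.card) ((d 0 : ℝ) ^ 2) with ⟨h, _⟩ | ⟨h, _⟩
      · rw [h, mul_div_assoc', div_le_iff₀ hF', mul_comm (N : ℝ)]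
        exact mul_le_mul_of_nonneg_right hμF hN'.le
      · rw [h]
        have h7 : d 0 ≤ DE d e := hd (Nat.zero_le _)
        have h8 : ((d 0 : ℕ) : ℝ) ≤ (DE d e : ℝ) := by exact_mod_cast h7
        have h9 : ((d 0 : ℕ) : ℝ) ^ 2 ≤ (DE d e : ℝ) ^ 2 :=
          pow_le_pow_left₀ (by positivity) h8 2
        calc (μ : ℝ) * (d 0 : ℝ) ^ 2 ≤ (μ : ℝ) * (DE d e : ℝ) ^ 2 :=
              mul_le_mul_of_nonneg_left h9 hμ'.le
          _ ≤ N := h5
    have h10 : (μ : ℝ) * (DE d e : ℝ) * q ^ 2 ≤ N := by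
      have h11 : ((μ : ℝ) * (DE d e : ℝ) * q ^ 2) ^ 2 ≤ (N : ℝ) ^ 2 := by
        calc ((μ : ℝ) * (DE d e : ℝ) * q ^ 2) ^ 2
            = ((μ : ℝ) * (DE d e : ℝ) ^ 2) * ((μ : ℝ) * q ^ 4) := by ring
          _ ≤ (N : ℝ) * N := mul_le_mul h5 h6 (by positivity) hN'.le
          _ = (N : ℝ) ^ 2 := by ring
      exact (pow_le_pow_iff_left₀ (by positivity) hN'.le two_ne_zero).mp h11
    have h12 : (DE d e : ℝ) / N ≤ (1 / q ^ 2) * (1 / μ) := by
      rw [div_mul_div_comm, one_mul, div_le_div_iff₀ hN' (by positivity)]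
      nlinarith
    refine h12.trans (mul_le_mul_of_nonneg_left ?_ (by positivity))
    rcases min_cases (lev F e.1.1) (lev F e.2.1) with ⟨h, _⟩ | ⟨h, _⟩
    · rw [hμ, h]
      have : (0 : ℝ) ≤ 1 / lev F e.2.1 := by positivity
      linarith
    · rw [hμ, h]
      have : (0 : ℝ) ≤ 1 / lev F e.1.1 := by positivity
      linarith
  have hs := sum_inv_lev F
  calc ∑ e ∈ TF d F, (DE d e : ℝ) / N
      ≤ ∑ e ∈ TF d F, (1 / q ^ 2) * ((1 : ℝ) / lev F e.1.1 + 1 / lev F e.2.1) :=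
        Finset.sum_le_sum hterm
    _ ≤ ∑ e ∈ F ×ˢ F, (1 / q ^ 2) * ((1 : ℝ) / lev F e.1.1 + 1 / lev F e.2.1) := by
        apply Finset.sum_le_sum_of_subset_of_nonneg
        · exact Finset.filter_subset _ _
        · intro e _ _
          positivity
    _ = (1 / q ^ 2) * (F.card * (∑ w ∈ F, (1 : ℝ) / lev F w.1) +
          F.card * (∑ w ∈ F, (1 : ℝ) / lev F w.1)) := by
        rw [← Finset.mul_sum, Finset.sum_add_distrib]
        congr 2
        · rw [Finset.sum_product]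
          simp only [Finset.sum_const, nsmul_eq_mul]
          rw [← Finset.mul_sum]
        · rw [Finset.sum_product]
          simp only [Finset.sum_const, nsmul_eq_mul]
    _ ≤ (1 / q ^ 2) * (F.card * k + F.card * k) := by
        apply mul_le_mul_of_nonneg_left _ (by positivity)
        have := mul_le_mul_of_nonneg_left hs hF'.le
        linarith
    _ = 2 * k * F.card / q ^ 2 := by ring

/-- the union bound weight -/
noncomputable def al (k N v : ℕ) : ℝ := max ((N : ℝ) / v) ((dd k 0 : ℝ) ^ 2)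

/-- bound for one set `F` -/
lemma Pr_sparse {k N : ℕ} (hk : 0 < k) (hN : 0 < N) (hNd : dd k k ≤ N)
    (F : Finset (Fin k × Fin N)) (hF : F.Nonempty) :
    Pr (fun ω : ((Fin k × Fin N) × (Fin k × Fin N)) → Fin N =>
      12 * F.card ≤ ((TF (dd k) F).filter (fun e => (ω e : ℕ) < DE (dd k) e)).card) ≤
      Real.exp F.card / (al k N F.card) ^ (3 * F.card) := by
  classical
  have hd0 : (16 : ℝ) * k ^ 4 ≤ (dd k 0 : ℝ) ^ 2 := by
    unfold dd mm
    push_cast
    nlinarith [sq_nonneg ((k : ℝ) ^ 2)]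
  have hk' : (1 : ℝ) ≤ k := by exact_mod_cast hk
  have hal : (16 : ℝ) * k ^ 4 ≤ al k N F.card := hd0.trans (le_max_right _ _)
  have hal0 : 0 < al k N F.card := lt_of_lt_of_le (by positivity) hal
  set q : ℝ := Real.sqrt (Real.sqrt (al k N F.card)) with hq
  have hq4 : q ^ 4 = al k N F.card := by
    have h1 : q ^ 2 = Real.sqrt (al k N F.card) := Real.sq_sqrt (Real.sqrt_nonneg _)
    calc q ^ 4 = (q ^ 2) ^ 2 := by ring
      _ = al k N F.card := by rw [h1, Real.sq_sqrt hal0.le]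
  have hq0 : 0 < q := Real.sqrt_pos.mpr (Real.sqrt_pos.mpr hal0)
  have hq2k : 2 * (k : ℝ) ≤ q := by
    have h2 : (2 * (k : ℝ)) ^ 4 ≤ q ^ 4 := by
      rw [hq4]; calc (2 * (k : ℝ)) ^ 4 = 16 * k ^ 4 := by ring
        _ ≤ _ := hal
    exact (pow_le_pow_iff_left₀ (by positivity) hq0.le (by norm_num)).mp h2
  have hq1 : 1 ≤ q := by linarith
  have hDE : ∀ e : (Fin k × Fin N) × (Fin k × Fin N), DE (dd k) e ≤ N := by
    intro e
    refine le_trans (dd_mono k ?_) hNd
    have h1 := e.1.1.2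
    have h2 := e.2.1.2
    unfold gap; omega
  refine (Pr_present hN (TF (dd k) F) (DE (dd k)) hDE (12 * F.card) q hq1).trans ?_
  have hlam := lam_bound hN (dd k) (dd_mono k) F hF q hq0 hq4
  have hF' : (0 : ℝ) < F.card := by exact_mod_cast Finset.card_pos.mpr hF
  have h3 : q * ∑ e ∈ TF (dd k) F, (DE (dd k) e : ℝ) / N ≤ F.card := by
    calc q * ∑ e ∈ TF (dd k) F, (DE (dd k) e : ℝ) / N
        ≤ q * (2 * k * F.card / q ^ 2) := mul_le_mul_of_nonneg_left hlam hq0.le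
      _ = (2 * k) * F.card / q := by field_simp
      _ ≤ F.card := by
          rw [div_le_iff₀ hq0, mul_comm (F.card : ℝ)]
          exact mul_le_mul_of_nonneg_right hq2k hF'.le
  have h4 : q ^ (12 * F.card) = (al k N F.card) ^ (3 * F.card) := by
    rw [← hq4, ← pow_mul]
    congr 1; ring
  rw [h4]
  exact div_le_div_of_nonneg_right (Real.exp_le_exp.mpr h3) (by positivity)

/-- bound for the binomial coefficient -/
lemma choose_bound {k N v : ℕ} (hk : 0 < k) (hv : 0 < v) (a : ℝ) (ha : 0 < a)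
    (hNa : (N : ℝ) / v ≤ a) :
    ((k * N).choose v : ℝ) ≤ (k * a) ^ v * Real.exp v := by
  have hk' : (0 : ℝ) < k := by exact_mod_cast hk
  have hv' : (0 : ℝ) < v := by exact_mod_cast hv
  set y : ℝ := 1 / (k * a) with hy
  have hy0 : 0 < y := by positivity
  rcases Nat.lt_or_ge (k * N) v with h | h
  · rw [Nat.choose_eq_zero_of_lt h]
    simp only [Nat.cast_zero]
    positivity
  have h1 : y ^ v * ((k * N).choose v : ℝ) ≤ (y + 1) ^ (k * N) := by
    rw [add_pow]
    have h2 := Finset.single_le_sum (f := fun i => y ^ i * 1 ^ (k * N - i) *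
      ((k * N).choose i : ℝ)) (s := Finset.range (k * N + 1))
      (fun i _ => by positivity) (Finset.mem_range.mpr (Nat.lt_succ_of_le h))
    simpa using h2
  have h2 : (y + 1) ^ (k * N) ≤ Real.exp v := by
    calc (y + 1) ^ (k * N) ≤ (Real.exp y) ^ (k * N) :=
          pow_le_pow_left₀ (by positivity) (Real.add_one_le_exp y) _
      _ = Real.exp ((k * N : ℕ) * y) := by rw [← Real.exp_nat_mul]
      _ ≤ Real.exp v := by
          apply Real.exp_le_exp.mpr
          rw [hy]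
          push_cast
          rw [mul_one_div, mul_div_mul_left _ _ hk'.ne', div_le_iff₀ ha]
          rw [div_le_iff₀ hv'] at hNa
          linarith
  have h3 : ((k * N).choose v : ℝ) = (k * a) ^ v * (y ^ v * ((k * N).choose v : ℝ)) := by
    rw [← mul_assoc, ← mul_pow, hy, mul_one_div, div_self (by positivity), one_pow, one_mul]
  rw [h3]
  exact mul_le_mul_of_nonneg_left (h1.trans h2) (by positivity)

lemma sq_le_two_pow (v : ℕ) : v ^ 2 ≤ 2 ^ (v + 1) := by
  rcases Nat.lt_or_ge v 3 with h | h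
  · interval_cases v <;> norm_num
  · induction v, h using Nat.le_induction with
    | base => norm_num
    | succ n hn ih =>
      have h1 : (n + 1) ^ 2 ≤ 2 * n ^ 2 := by nlinarith
      calc (n + 1) ^ 2 ≤ 2 * n ^ 2 := h1
        _ ≤ 2 * 2 ^ (n + 1) := Nat.mul_le_mul_left _ ih
        _ = 2 ^ (n + 1 + 1) := by ring

/-- one term of the union bound -/
lemma term_bound {k N v : ℕ} (hk : 0 < k) (hN : 0 < N) (hv : 0 < v) :
    ((k * N).choose v : ℝ) * (Real.exp v / (al k N v) ^ (3 * v)) ≤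
      (64 * k / (N : ℝ) ^ 2) * (1 / 2) ^ v := by
  have hk' : (1 : ℝ) ≤ k := by exact_mod_cast hk
  have hv' : (0 : ℝ) < v := by exact_mod_cast hv
  have hN' : (0 : ℝ) < N := by exact_mod_cast hN
  have hd0 : (16 : ℝ) * k ^ 4 ≤ (dd k 0 : ℝ) ^ 2 := by
    unfold dd mm
    push_cast
    nlinarith [sq_nonneg ((k : ℝ) ^ 2)]
  set a : ℝ := al k N v with ha
  have hal : (16 : ℝ) * k ^ 4 ≤ a := hd0.trans (le_max_right _ _)
  have hk4 : (1 : ℝ) ≤ (k : ℝ) ^ 4 := one_le_pow₀ hk'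
  have ha0 : 0 < a := by linarith
  have hNa : (N : ℝ) / v ≤ a := le_max_left _ _
  have hc := choose_bound hk hv a ha0 hNa
  have he2 : Real.exp 1 ^ 2 ≤ 8 := by
    have := Real.exp_one_lt_d9
    have h0 : 0 < Real.exp 1 := Real.exp_pos 1
    nlinarith
  have hev : Real.exp v = (Real.exp 1) ^ v := by
    rw [← Real.exp_nat_mul, mul_one]
  -- the base
  set b : ℝ := 8 * k / a ^ 2 with hb
  have hb0 : 0 < b := by positivity
  have h1 : ((k * N).choose v : ℝ) * (Real.exp v / a ^ (3 * v)) ≤ b ^ v := by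
    calc ((k * N).choose v : ℝ) * (Real.exp v / a ^ (3 * v))
        ≤ ((k * a) ^ v * Real.exp v) * (Real.exp v / a ^ (3 * v)) :=
          mul_le_mul_of_nonneg_right hc (by positivity)
      _ = (k * (Real.exp 1 ^ 2) / a ^ 2) ^ v := by
          rw [hev, div_pow, mul_pow, mul_pow, ← pow_mul, ← pow_mul,
            show 3 * v = v + 2 * v by ring, pow_add a v (2 * v)]
          have hav : a ^ v ≠ 0 := by positivity
          have hav2 : a ^ (2 * v) ≠ 0 := by positivity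
          rw [show (2 * v) = v + v by ring, pow_add, pow_add]
          field_simp
      _ ≤ b ^ v := by
          apply pow_le_pow_left₀ (by positivity)
          rw [hb]
          apply div_le_div_of_nonneg_right _ (by positivity)
          nlinarith
  have h2 : b ≤ 1 / 4 := by
    rw [hb, div_le_div_iff₀ (by positivity) (by norm_num)]
    have h3 : (k : ℝ) ≤ (k : ℝ) ^ 4 := by
      calc (k : ℝ) = (k : ℝ) ^ 1 := by ring
        _ ≤ (k : ℝ) ^ 4 := pow_le_pow_right₀ hk' (by norm_num)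
    have h4 : (16 : ℝ) * k ≤ a := by linarith
    nlinarith
  have h3 : b ≤ 8 * k * v ^ 2 / N ^ 2 := by
    rw [hb, div_le_div_iff₀ (by positivity) (by positivity)]
    rw [div_le_iff₀ hv'] at hNa
    have h5 : (N : ℝ) ^ 2 ≤ (a * v) ^ 2 := pow_le_pow_left₀ hN'.le hNa 2
    have h6 : (0 : ℝ) ≤ 8 * k := by positivity
    have h7 := mul_le_mul_of_nonneg_left h5 h6
    calc 8 * (k : ℝ) * N ^ 2 ≤ 8 * k * (a * v) ^ 2 := h7
      _ = 8 * k * v ^ 2 * a ^ 2 := by ring
  refine h1.trans ?_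
  obtain ⟨w, rfl⟩ : ∃ w, v = w + 1 := ⟨v - 1, by omega⟩
  have h4 : b ^ (w + 1) ≤ (8 * k * ((w + 1 : ℕ) : ℝ) ^ 2 / N ^ 2) * (1 / 4) ^ w := by
    rw [pow_succ, mul_comm]
    exact mul_le_mul h3 (pow_le_pow_left₀ hb0.le h2 w) (by positivity) (by positivity)
  refine h4.trans ?_
  have h5 : (((w + 1 : ℕ) : ℝ)) ^ 2 ≤ 2 ^ (w + 1 + 1) := by
    exact_mod_cast sq_le_two_pow (w + 1)
  calc (8 * k * ((w + 1 : ℕ) : ℝ) ^ 2 / N ^ 2) * (1 / 4) ^ w
      ≤ (8 * k * 2 ^ (w + 1 + 1) / N ^ 2) * (1 / 4) ^ w := by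
        apply mul_le_mul_of_nonneg_right _ (by positivity)
        apply div_le_div_of_nonneg_right _ (by positivity)
        exact mul_le_mul_of_nonneg_left h5 (by positivity)
    _ = (64 * k / (N : ℝ) ^ 2) * (1 / 2) ^ (w + 1) := by
        rw [show (1 / 4 : ℝ) = (1 / 2) * (1 / 2) by norm_num, mul_pow, pow_add 2, pow_add 2,
          pow_succ (1 / 2 : ℝ) w]
        have : (2 : ℝ) ^ w * (1 / 2) ^ w = 1 := by
          rw [← mul_pow]; norm_num
        field_simp
        ring_nf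
        have h9 : (2 : ℝ) ^ w * (1 / 2) ^ w = 1 := this
        nlinarith

end Pool.Agent.EZE
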