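import Pool.Agent.EZE.Exist

set_option autoImplicit false

namespace Pool.Agent.EZE

open Finset

/-- bad event: no edge between `X` on level `s` and `Y` on level `t` -/
def badR {k N : ℕ} (i : (Fin k × Fin k) × (Finset (Fin N) × Finset (Fin N)))
    (ω : ((Fin k × Fin N) × (Fin k × Fin N)) → Fin N) : Prop :=
  i.1.1 < i.1.2 ∧ N ≤ i.2.1.card * mm k (gap i.1.1 i.1.2) ∧
    N ≤ i.2.2.card * mm k (gap i.1.1 i.1.2) ∧
    ∀ x ∈ i.2.1, ∀ y ∈ i.2.2,
      ¬ (ω ((i.1.1, x), (i.1.2, y)) : ℕ) < DE (dd k) ((i.1.1, x), (i.1.2, y))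

lemma DE_le {k N : ℕ} (hNd : dd k k ≤ N) (e : (Fin k × Fin N) × (Fin k × Fin N)) :
    DE (dd k) e ≤ N := by
  refine le_trans (dd_mono k ?_) hNd
  have h1 := e.1.1.2
  have h2 := e.2.1.2
  unfold gap; omega

lemma Pr_rect {k N : ℕ} (hN : 0 < N) (hNd : dd k k ≤ N)
    (i : (Fin k × Fin k) × (Finset (Fin N) × Finset (Fin N))) :
    Pr (badR i) ≤ Real.exp (-4) ^ N := by
  classical
  have hN' : (0 : ℝ) < N := by exact_mod_cast hN
  obtain ⟨⟨s, t⟩, ⟨X, Y⟩⟩ := i
  by_cases hc : s < t ∧ N ≤ X.card * mm k (gap s t) ∧ N ≤ Y.card * mm k (gap s t)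
  swap
  · rw [Pr_false (p := badR ((s, t), (X, Y))) (fun ω h => hc ⟨h.1, h.2.1, h.2.2.1⟩)]
    positivity
  obtain ⟨hst, hX, hY⟩ := hc
  let φ : (Fin N × Fin N) ↪ ((Fin k × Fin N) × (Fin k × Fin N)) :=
    ⟨fun p => ((s, p.1), (t, p.2)), by
      intro p q h
      simp only [Prod.mk.injEq, true_and] at h
      exact Prod.ext h.1 h.2⟩
  have h1 := Pr_absent hN ((X ×ˢ Y).map φ) (DE (dd k)) (DE_le hNd)
  refine (Pr_mono (q := fun ω : ((Fin k × Fin N) × (Fin k × Fin N)) → Fin N =>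
    ∀ e ∈ (X ×ˢ Y).map φ, ¬ (ω e : ℕ) < DE (dd k) e) ?_).trans (h1.trans ?_)
  · rintro ω ⟨_, _, _, h⟩ e he
    rw [Finset.mem_map] at he
    obtain ⟨⟨x, y⟩, hxy, rfl⟩ := he
    rw [Finset.mem_product] at hxy
    exact h x hxy.1 y hxy.2
  · rw [← Real.exp_nat_mul]
    apply Real.exp_le_exp.mpr
    rw [Finset.sum_map]
    have h2 : ∀ p ∈ X ×ˢ Y, (DE (dd k) (φ p) : ℝ) / N = (dd k (gap s t) : ℝ) / N :=
      fun p _ => rfl
    rw [Finset.sum_congr rfl h2, Finset.sum_const, Finset.card_product, nsmul_eq_mul]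
    have h3 : (N : ℝ) ≤ X.card * mm k (gap s t) := by exact_mod_cast hX
    have h4 : (N : ℝ) ≤ Y.card * mm k (gap s t) := by exact_mod_cast hY
    have h5 : (dd k (gap s t) : ℝ) = 4 * (mm k (gap s t) : ℝ) ^ 2 := by
      unfold dd; push_cast; ring
    rw [h5]
    have h6 : (N : ℝ) * N ≤ (X.card * mm k (gap s t)) * (Y.card * mm k (gap s t)) :=
      mul_le_mul h3 h4 hN'.le (by positivity)
    have h7 : 4 * (N : ℝ) ≤ (X.card * Y.card : ℕ) * (4 * (mm k (gap s t) : ℝ) ^ 2 / N) := by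
      rw [mul_div_assoc', le_div_iff₀ hN']
      push_cast
      nlinarith
    linarith

/-- sum of the bounds for rectangles -/
lemma sum_rect {k N : ℕ} (hN : 0 < N) (hNd : dd k k ≤ N) (hNk : 4 * k ^ 2 ≤ N) :
    ∑ i : (Fin k × Fin k) × (Finset (Fin N) × Finset (Fin N)), Pr (badR i) ≤ 1 / 4 := by
  have hN' : (0 : ℝ) < N := by exact_mod_cast hN
  calc ∑ i : (Fin k × Fin k) × (Finset (Fin N) × Finset (Fin N)), Pr (badR i)
      ≤ ∑ i : (Fin k × Fin k) × (Finset (Fin N) × Finset (Fin N)), Real.exp (-4) ^ N :=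
        Finset.sum_le_sum (fun i _ => Pr_rect hN hNd i)
    _ = (k : ℝ) ^ 2 * (4 * Real.exp (-4)) ^ N := by
        rw [Finset.sum_const, Finset.card_univ, nsmul_eq_mul]
        simp only [Fintype.card_prod, Fintype.card_fin, Fintype.card_finset]
        push_cast
        rw [mul_pow, show (4 : ℝ) ^ N = 2 ^ N * 2 ^ N by rw [← mul_pow]; norm_num]
        ring
    _ ≤ (k : ℝ) ^ 2 * (1 / 2) ^ N := by
        apply mul_le_mul_of_nonneg_left _ (by positivity)
        apply pow_le_pow_left₀ (by positivity)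
        have h1 : Real.exp (-4) = (Real.exp 1 ^ 4)⁻¹ := by
          rw [← Real.exp_nat_mul, ← Real.exp_neg]
          norm_num
        have h2 : (2 : ℝ) ≤ Real.exp 1 := by
          have := Real.exp_one_gt_d9; linarith
        have h3 : (2 : ℝ) ^ 4 ≤ Real.exp 1 ^ 4 := pow_le_pow_left₀ (by norm_num) h2 4
        rw [h1]
        have h4 : (Real.exp 1 ^ 4)⁻¹ ≤ (2 ^ 4 : ℝ)⁻¹ := inv_anti₀ (by norm_num) h3
        have h5 : ((2 : ℝ) ^ 4)⁻¹ = 1 / 16 := by norm_num
        rw [h5] at h4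
        linarith
    _ ≤ (k : ℝ) ^ 2 * (1 / N) := by
        apply mul_le_mul_of_nonneg_left _ (by positivity)
        rw [one_div_pow]
        apply one_div_le_one_div_of_le hN'
        exact_mod_cast (Nat.lt_two_pow_self (n := N)).le
    _ ≤ 1 / 4 := by
        rw [mul_one_div, div_le_div_iff₀ hN' (by norm_num)]
        have : (4 : ℝ) * k ^ 2 ≤ N := by exact_mod_cast hNk
        linarith

/-- the bad event for a set `F` -/
def badS {k N : ℕ} (F : Finset (Fin k × Fin N))
    (ω : ((Fin k × Fin N) × (Fin k × Fin N)) → Fin N) : Prop :=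
  12 * F.card ≤ ((TF (dd k) F).filter (fun e => (ω e : ℕ) < DE (dd k) e)).card

lemma sum_sparse {k N : ℕ} (hk : 0 < k) (hN : 0 < N) (hNd : dd k k ≤ N)
    (hNk : 512 * k ≤ N) :
    ∑ F ∈ (Finset.univ : Finset (Finset (Fin k × Fin N))).filter (fun F => F.Nonempty),
      Pr (badS F) ≤ 1 / 4 := by
  classical
  have hN' : (0 : ℝ) < N := by exact_mod_cast hN
  have hN1 : (1 : ℝ) ≤ N := by exact_mod_cast hN
  let g : ℕ → ℝ := fun v => if v = 0 then 0 else Real.exp v / (al k N v) ^ (3 * v)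
  have hal : ∀ v, 0 ≤ al k N v := fun v => le_max_of_le_right (by positivity)
  have hg : ∀ v, 0 ≤ g v := by
    intro v
    simp only [g]
    split_ifs
    · exact le_rfl
    · have := hal v
      positivity
  calc ∑ F ∈ (Finset.univ : Finset (Finset (Fin k × Fin N))).filter (fun F => F.Nonempty),
      Pr (badS F)
      ≤ ∑ F ∈ (Finset.univ : Finset (Finset (Fin k × Fin N))).filter (fun F => F.Nonempty),
        g F.card := by
        apply Finset.sum_le_sum
        intro F hF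
        have hF' : F.Nonempty := (Finset.mem_filter.mp hF).2
        have h0 : F.card ≠ 0 := (Finset.card_pos.mpr hF').ne'
        simp only [g, h0, if_false]
        exact Pr_sparse hk hN hNd F hF'
    _ ≤ ∑ F ∈ (Finset.univ : Finset (Fin k × Fin N)).powerset, g F.card := by
        rw [Finset.powerset_univ]
        apply Finset.sum_le_sum_of_subset_of_nonneg (Finset.filter_subset _ _)
        intro F _ _
        exact hg _
    _ = ∑ v ∈ Finset.range (k * N + 1), ((k * N).choose v) • g v := by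
        rw [Finset.sum_powerset_apply_card]
        simp [Finset.card_univ, Fintype.card_prod, Fintype.card_fin]
    _ ≤ ∑ v ∈ Finset.range (k * N + 1), (64 * k / (N : ℝ) ^ 2) * (1 / 2) ^ v := by
        apply Finset.sum_le_sum
        intro v _
        rw [nsmul_eq_mul]
        by_cases h0 : v = 0
        · simp only [g, h0, if_true, mul_zero]
          positivity
        · simp only [g, h0, if_false]
          exact term_bound hk hN (Nat.pos_of_ne_zero h0)
    _ = (64 * k / (N : ℝ) ^ 2) * ∑ v ∈ Finset.range (k * N + 1), (1 / 2 : ℝ) ^ v := by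
        rw [Finset.mul_sum]
    _ ≤ (64 * k / (N : ℝ) ^ 2) * 2 :=
        mul_le_mul_of_nonneg_left (sum_geometric_two_le _) (by positivity)
    _ ≤ 1 / 4 := by
        rw [div_mul_eq_mul_div, div_le_div_iff₀ (by positivity) (by norm_num)]
        have h1 : (512 : ℝ) * k ≤ N := by exact_mod_cast hNk
        nlinarith

/-- Existence of good graphs. -/
theorem exists_good (k : ℕ) (hk : 0 < k) :
    ∃ N : ℕ, 0 < N ∧ (∀ i, i < k → dd k i ^ 2 ≤ N) ∧
      ∃ G : SimpleGraph (Fin k × Fin N), Good k N (dd k) (mm k) G := by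
  classical
  obtain ⟨N, hNdef⟩ : ∃ N : ℕ, N = dd k k ^ 2 + 4 * k ^ 2 + 512 * k := ⟨_, rfl⟩
  have hN : 0 < N := by rw [hNdef]; positivity
  have hd1 : dd k k ≤ dd k k ^ 2 := by
    rcases Nat.eq_zero_or_pos (dd k k) with h | h
    · rw [h]; exact Nat.zero_le _
    · nlinarith
  have hNd : dd k k ≤ N := by
    have h1 : 0 ≤ 4 * k ^ 2 := Nat.zero_le _
    omega
  have hNk : 4 * k ^ 2 ≤ N := by omega
  have hNk' : 512 * k ≤ N := by omega
  refine ⟨N, hN, ?_, ?_⟩
  · intro i hi
    have h1 : dd k i ^ 2 ≤ dd k k ^ 2 := Nat.pow_le_pow_left (dd_mono k hi.le) 2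
    omega
  haveI : Nonempty (Fin N) := ⟨⟨0, hN⟩⟩
  have hlt : Pr (fun ω : ((Fin k × Fin N) × (Fin k × Fin N)) → Fin N =>
      (∃ i ∈ (Finset.univ : Finset ((Fin k × Fin k) × (Finset (Fin N) × Finset (Fin N)))),
        badR i ω) ∨
      (∃ F ∈ (Finset.univ : Finset (Finset (Fin k × Fin N))).filter (fun F => F.Nonempty),
        badS F ω)) < 1 := by
    refine lt_of_le_of_lt (Pr_or _ _) ?_
    have h1 := Pr_exists (Ω := ((Fin k × Fin N) × (Fin k × Fin N)) → Fin N)
      (Finset.univ : Finset ((Fin k × Fin k) × (Finset (Fin N) × Finset (Fin N)))) badR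
    have h2 := Pr_exists (Ω := ((Fin k × Fin N) × (Fin k × Fin N)) → Fin N)
      ((Finset.univ : Finset (Finset (Fin k × Fin N))).filter (fun F => F.Nonempty)) badS
    have h3 := sum_rect (k := k) hN hNd hNk
    have h4 := sum_sparse hk hN hNd hNk'
    linarith
  obtain ⟨ω, hω⟩ := exists_of_Pr_lt hlt
  rw [not_or] at hω
  obtain ⟨hR, hS⟩ := hω
  refine ⟨Gr (dd k) ω, ?_, ?_, ?_⟩
  · rintro u w (h | h)
    · exact h.1.ne
    · exact h.1.ne'
  · intro s t hst X Y hX hY
    by_contra hcon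
    push Not at hcon
    apply hR
    refine ⟨((s, t), (X, Y)), Finset.mem_univ _, hst, hX, hY, ?_⟩
    intro x hx y hy hlt'
    exact hcon x hx y hy (Or.inl ⟨hst, hlt'⟩)
  · intro F hF
    rw [lightE_eq]
    by_contra hcon
    push Not at hcon
    exact hS ⟨F, Finset.mem_filter.mpr ⟨Finset.mem_univ _, hF⟩, hcon⟩

/-- **Counterexample to the question of El-Zahar and Erdős.** -/
theorem counterexample (n : ℕ) :
    ∃ (V : Type) (_ : Fintype V) (G : SimpleGraph V), G.CliqueFree 25 ∧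
      ((n : ℕ) : ℕ∞) ≤ G.chromaticNumber ∧
      ∀ A B : Set V, (∀ a ∈ A, ∀ b ∈ B, ¬ G.Adj a b) →
        (G.induce A).Colorable 48 ∨ (G.induce B).Colorable 48 := by
  classical
  obtain ⟨N, hN, hdN, G, hG⟩ := exists_good (2 * n + 1) (by omega)
  refine ⟨Fin (2 * n + 1) × Fin N, inferInstance, G, hG.cliqueFree hdN, ?_, ?_⟩
  · by_contra hcon
    rw [not_le] at hcon
    have hne : G.chromaticNumber ≠ ⊤ := ne_top_of_lt hcon
    obtain ⟨q, hq⟩ := ENat.ne_top_iff_exists.mp hne
    have hcol : G.Colorable q := SimpleGraph.chromaticNumber_le_iff_colorable.mp hq.symm.le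
    rw [← hq] at hcon
    have hqn : q < n := by exact_mod_cast hcon
    have := hG.chi (by omega) hN (fun i _ => le_mm _ i) q hcol
    omega
  · intro A B hAB
    have h := hG.main (dd_sq_le _) A.toFinset B.toFinset (by
      intro a ha b hb
      exact hAB a (Set.mem_toFinset.mp ha) b (Set.mem_toFinset.mp hb))
    have hcol : ∀ S : Set (Fin (2 * n + 1) × Fin N),
        (∃ f : (Fin (2 * n + 1) × Fin N) → Fin 24 × Bool,
          ∀ u ∈ S.toFinset, ∀ w ∈ S.toFinset, G.Adj u w → f u ≠ f w) →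
        (G.induce S).Colorable 48 := by
      rintro S ⟨f, hf⟩
      have h1 : (G.induce S).Coloring (Fin 24 × Bool) :=
        SimpleGraph.Coloring.mk (fun v => f v.1) (by
          intro u w huw
          exact hf u.1 (Set.mem_toFinset.mpr u.2) w.1 (Set.mem_toFinset.mpr w.2) huw)
      have h2 := h1.colorable
      simpa using h2
    rcases h with h | h
    · exact Or.inl (hcol A h)
    · exact Or.inr (hcol B h)

end Pool.Agent.EZE
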